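import Mathlib
import Pool.Agent.H429R2.Auto
import Pool.Agent.Zk45.RS.WordsD
import Pool.Agent.Zk45.RS.Stm2
import Pool.Agent.Zk63.RS45.Conf
import Pool.Agent.Zk85.RS45.Sets

set_option autoImplicit false

/-!
# All words recur at almost all positions, for every finite configuration and every infinite invariant set

A position `j` is good for the configuration `x` and the length `L` if every word of `L` letters is shown at `j`
by `F^n x` for infinitely many `n`; the orbit of `x` is dense in a strong sense if all positions are good for all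
`L`. We show that for every nonzero finite configuration, and for the expansion of every positive real number, all
positions are good for `L` but a set of uniform density zero: for all `L` and `ε > 0` there is `R₀`, which does not
depend on the configuration, such that among any `R ≥ R₀` consecutive positions at most `ε R` are not good. There
is an upper bound for the first time after `N` at which the words are shown, and a version for the multiples
`s^i x` at a given position. The same holds for every infinite set `X` of configurations with `F(X) = X` (every word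
of length `L` is shown by some element of `X`).

Proof. Furstenberg's theorem for stationary random closed sets: if `F(ω)` is a random closed subset of the circle
with `p F(ω) ∪ q F(ω) ⊆ F(σ ω)`, `σ` measure preserving and `p`, `q` multiplicatively independent, then `F(ω)` is
almost surely finite or the whole circle. (There is no invariance in the fibres, as in the theorem of the starting
files; a point at distance `δ` of `0` gives information about `F(σ^m ω)` for `m` between `c₁ log (1/δ)` and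
`c₂ log (1/δ)` only, and this suffices by the ergodic theorem.) If the statement fails one obtains a stationary
sequence of missed words `w(j)` and closed sets `F` of limits of the numbers `6^j ξ (3/2)^n` modulo one, which are
functions of the sequence of missed words, with `4 F ∪ 9 F ⊆ F ∘ σ`.
-/

namespace Pool.Agent.Results.MP_cc0c1a_nt.AlmostAllPositionsRecur

open Pool.Agent.H429R2.Auto

/-- `x` shows the word `w` of `L` letters starting at the position `j`. -/
def Shows {L : ℕ} (x : Conf) (w : Fin L → Fin 6) (j : ℤ) : Prop := ∀ s : Fin L, x (j + (s : ℕ)) = w s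

/-- Every word of `L` letters is shown by `F^n x` at the position `j` for infinitely many `n`. -/
def Good (L : ℕ) (x : Conf) (j : ℤ) : Prop := ∀ w : Fin L → Fin 6, {n : ℕ | Shows (F^[n] x) w j}.Infinite

/-- `x` is the base-6 expansion of a positive real number. -/
def PosReal (x : Conf) : Prop := ∃ α : ℝ, 0 < α ∧ Rep x α

/-- The base-6 expansion of the real number `β ≥ 0`: the digit at the position `i` is
`⌊6 ^ i β⌋ mod 6`. -/
noncomputable def expansion (β : ℝ) : Conf :=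
  fun i => ⟨⌊(6 : ℝ) ^ i * β⌋₊ % 6, Nat.mod_lt _ (by norm_num)⟩

/-- Among any `R` consecutive integers at most `ε R` have the property `B`. -/
def Rare (ε : ℝ) (R : ℕ) (B : ℤ → Prop) : Prop :=
  ∀ p : ℤ, ({j : ℤ | p ≤ j ∧ j < p + R ∧ B j}.ncard : ℝ) ≤ ε * R

theorem shows_of {L : ℕ} (w : Fin L → Fin 6) {x : Conf} {β : ℝ} (hβ : 0 < β) (hx : Rep x β) (n : ℕ) (j : ℤ)
    (h : (((6 : ℝ) ^ (j - 1) * ((3 / 2) ^ n * β) : ℝ) : UnitAddCircle) ∈ Pool.Agent.Zk45.Syn.arc w) :
    Shows (F^[n] x) w j :=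
  Pool.Agent.Zk45.Syn.shows_of_arc w (by positivity) (rep_iter hβ.le hx n) j h

theorem shift_eq (p : ℤ) (i n : ℕ) (α : ℝ) :
    (6 : ℝ) ^ (p - 1) * ((3 / 2) ^ n * (((6 : ℕ) : ℝ) ^ i * α)) = (6 : ℝ) ^ (p + i - 1) * ((3 / 2) ^ n * α) := by
  rw [show p + (i : ℤ) - 1 = (p - 1) + i by ring, zpow_add₀ (by norm_num), zpow_natCast]
  push_cast
  ring

/-- The bound for the times, in terms of `v`. -/
noncomputable def wait (v : ℝ) : ℝ := max (Real.logb 2 v) (-Real.logb (3 / 2) v)

theorem wait_mul {v : ℝ} (hv : 0 < v) (i : ℕ) : wait v ≤ 5 * i + wait ((6 : ℝ) ^ i * v) := by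
  unfold wait
  have h6 : (0 : ℝ) < (6 : ℝ) ^ i := by positivity
  rw [Real.logb_mul h6.ne' hv.ne', Real.logb_mul h6.ne' hv.ne', Real.logb_pow, Real.logb_pow]
  have h1 : 0 ≤ Real.logb 2 6 := Real.logb_nonneg (by norm_num) (by norm_num)
  have h2 : Real.logb (3 / 2) 6 ≤ 5 := by
    rw [Real.logb_le_iff_le_rpow (by norm_num) (by norm_num)]
    rw [show ((3 : ℝ) / 2) ^ (5 : ℝ) = (3 / 2) ^ (5 : ℕ) by rw [← Real.rpow_natCast]; norm_num]
    norm_num
  have hi : (0 : ℝ) ≤ i := Nat.cast_nonneg i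
  refine max_le ?_ ?_
  · have h3 : Real.logb 2 v ≤ i * Real.logb 2 6 + Real.logb 2 v := by nlinarith
    refine h3.trans (le_trans (le_max_left _ (-(i * Real.logb (3 / 2) 6 + Real.logb (3 / 2) v))) ?_)
    linarith
  · have h3 : -Real.logb (3 / 2) v ≤ 5 * i + -(i * Real.logb (3 / 2) 6 + Real.logb (3 / 2) v) := by nlinarith
    refine h3.trans ?_
    have := le_max_right (i * Real.logb 2 6 + Real.logb 2 v) (-(i * Real.logb (3 / 2) 6 + Real.logb (3 / 2) v))
    linarith

/-- (2) with a bound for the times -/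
theorem timed (L : ℕ) (ε : ℝ) (hε : 0 < ε) : ∃ R₀ C : ℕ, ∀ R : ℕ, R₀ ≤ R → ∀ (x : Conf) (α : ℝ), 0 < α → Rep x α →
    ∀ N : ℕ, Rare ε R (fun j => ¬ ∀ w : Fin L → Fin 6, ∃ n : ℕ, N ≤ n ∧
      (n : ℝ) ≤ N + C + wait ((6 : ℝ) ^ j * ((3 / 2) ^ N * α)) ∧ Shows (F^[n] x) w j) := by
  classical
  obtain ⟨R₀, C, hR₀, hC⟩ := Pool.Agent.Zk45.RS.wordsD 6 3 (by norm_num) (Or.inl (by norm_num)) L (ε / 2) (by linarith)
  refine ⟨R₀, C + 5 * R₀, fun R hR x α hα hx N => ?_⟩
  have h := Pool.Agent.Zk45.RS.rare_of (δ := ε / 2) (by linarith) hR₀ (B := fun j => ¬ ∀ w : Fin L → Fin 6, ∃ n : ℕ, N ≤ n ∧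
      (n : ℝ) ≤ N + (C + 5 * R₀ : ℕ) + wait ((6 : ℝ) ^ j * ((3 / 2) ^ N * α)) ∧ Shows (F^[n] x) w j) ?_ hR
  · rw [show 2 * (ε / 2) = ε by ring] at h
    exact h
  intro p
  refine le_trans ?_ (hC α hα p N)
  refine Pool.Agent.Zk45.RS.count_le _ fun i hi hbad => ?_
  refine fun hcon => hbad fun w => ?_
  obtain ⟨n, h1, h2, h3⟩ := hcon w
  rw [shift_eq] at h3
  refine ⟨n, h1, ?_, shows_of w hα hx n _ h3⟩
  have hi' : (i : ℝ) ≤ R₀ := by exact_mod_cast hi.le
  have h4 := wait_mul (v := (6 : ℝ) ^ p * ((3 / 2) ^ N * α)) (by positivity) i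
  have h5 : (6 : ℝ) ^ i * ((6 : ℝ) ^ p * ((3 / 2) ^ N * α)) = (6 : ℝ) ^ (p + (i : ℤ)) * ((3 / 2) ^ N * α) := by
    rw [zpow_add₀ (by norm_num), zpow_natCast]; ring
  rw [h5] at h4
  have h6 : max (Real.logb 2 ((6 : ℝ) ^ p * ((3 / 2) ^ N * α))) (-Real.logb (3 / 2) ((6 : ℝ) ^ p * ((3 / 2) ^ N * α))) =
    wait ((6 : ℝ) ^ p * ((3 / 2) ^ N * α)) := rfl
  rw [h6] at h2
  push_cast
  linarith

/-- one configuration -/
theorem single (L : ℕ) (ε : ℝ) (hε : 0 < ε) : ∃ R₀ : ℕ, ∀ R : ℕ, R₀ ≤ R → ∀ x : Conf, PosReal x →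
    Pool.Agent.Zk45.RS.Rare ε R (fun j => ¬ Good L x j) := by
  classical
  obtain ⟨R₀, hR₀, hC⟩ := Pool.Agent.Zk45.RS.wordsD_inf 6 3 (by norm_num) (Or.inl (by norm_num)) L (ε / 2) (by linarith)
  refine ⟨R₀, fun R hR x hx => ?_⟩
  obtain ⟨α, hα, hxα⟩ := hx
  have h := Pool.Agent.Zk45.RS.rare_of (δ := ε / 2) (by linarith) hR₀ (B := fun j => ¬ Good L x j) ?_ hR
  · rw [show 2 * (ε / 2) = ε by ring] at h
    exact h
  intro p
  refine le_trans ?_ (hC α hα p)
  refine Pool.Agent.Zk45.RS.count_le _ fun i hi hbad => ?_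
  refine fun hcon => hbad fun w => ?_
  refine (hcon w).mono fun n hn => ?_
  rw [Set.mem_ofPred_eq, shift_eq] at hn
  exact shows_of w hα hxα n _ hn

/-- `k` configurations -/
theorem several (L k : ℕ) (ε : ℝ) (hε : 0 < ε) : ∃ R₀ : ℕ, ∀ R : ℕ, R₀ ≤ R → ∀ x : Fin k → Conf,
    (∀ i, PosReal (x i)) → Rare ε R (fun j => ∃ i, ¬ Good L (x i) j) := by
  rcases Nat.eq_zero_or_pos k with rfl | hk
  · refine ⟨0, fun R _ x _ p => ?_⟩
    have : {j : ℤ | p ≤ j ∧ j < p + R ∧ ∃ i : Fin 0, ¬ Good L (x i) j} = ∅ := by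
      ext j
      simp
    rw [this]
    simp
    positivity
  · have hk0 : (0 : ℝ) < k := by exact_mod_cast hk
    obtain ⟨R₀, hR₀⟩ := single L (ε / k) (by positivity)
    refine ⟨R₀, fun R hR x hx => ?_⟩
    exact Pool.Agent.Zk45.RS.rare_exists (fun i => hR₀ R hR (x i) (hx i)) hε.le

/-- the multiples `s^i α` -/
theorem multiples (s : ℕ) (hs : 2 ≤ s) (hs6 : ¬ s.Coprime 6) (L : ℕ) (ε : ℝ) (hε : 0 < ε) :
    ∃ R₀ : ℕ, ∀ R : ℕ, R₀ ≤ R → ∀ α : ℝ, 0 < α → ∀ p : ℤ,
      Rare ε R (fun i => ¬ Good L (expansion ((s : ℝ) ^ i * α)) p) := by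
  classical
  obtain ⟨c, hc, hsc⟩ : ∃ c : ℕ, 1 ≤ c ∧ (s = 2 * c ∨ s = 3 * c) := by
    have h1 : 2 ∣ s ∨ 3 ∣ s := by
      by_contra h
      push Not at h
      apply hs6
      rw [show (6 : ℕ) = 2 * 3 by norm_num]
      exact Nat.Coprime.mul_right ((Nat.Prime.coprime_iff_not_dvd Nat.prime_two).2 h.1).symm
        ((Nat.Prime.coprime_iff_not_dvd Nat.prime_three).2 h.2).symm
    rcases h1 with ⟨c, hc⟩ | ⟨c, hc⟩
    · exact ⟨c, by omega, Or.inl hc⟩
    · exact ⟨c, by omega, Or.inr hc⟩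
  have hs0 : (0 : ℝ) < s := by exact_mod_cast (by omega : 0 < s)
  obtain ⟨R₀, hR₀, hC⟩ := Pool.Agent.Zk45.RS.wordsD_inf s c hc hsc L (ε / 2) (by linarith)
  refine ⟨R₀, fun R hR α hα p => ?_⟩
  have h := Pool.Agent.Zk45.RS.rare_of (δ := ε / 2) (by linarith) hR₀
    (B := fun i => ¬ Good L (expansion ((s : ℝ) ^ i * α)) p) ?_ hR
  · rw [show 2 * (ε / 2) = ε by ring] at h
    exact h
  intro a
  refine le_trans ?_ (hC ((s : ℝ) ^ a * α) (by positivity) p)
  refine Pool.Agent.Zk45.RS.count_le _ fun i hi hbad => ?_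
  refine fun hcon => hbad fun w => ?_
  refine (hcon w).mono fun n hn => ?_
  have e : (s : ℝ) ^ i * ((s : ℝ) ^ a * α) = (s : ℝ) ^ (a + (i : ℤ)) * α := by
    rw [zpow_add₀ hs0.ne', zpow_natCast]; ring
  rw [Set.mem_ofPred_eq, e] at hn
  exact shows_of w (by positivity) (fun _ => rfl) n _ hn

/-- invariant sets of configurations -/
theorem sets (H : Pool.Agent.Zk45.RS.S_CONF) (L : ℕ) (ε : ℝ) (hε : 0 < ε) : ∃ R₀ : ℕ, ∀ R : ℕ, R₀ ≤ R →
    ∀ X : Set Conf, F '' X = X → X.Infinite →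
      Rare ε R (fun j => ¬ ∀ w : Fin L → Fin 6, ∃ x ∈ X, Shows x w j) := by
  classical
  obtain ⟨R₀, hR₀, hC⟩ := H L (ε / 2) (by linarith)
  refine ⟨R₀, fun R hR X hX hinf => ?_⟩
  have h := Pool.Agent.Zk45.RS.rare_of (δ := ε / 2) (by linarith) hR₀
    (B := fun j => ¬ ∀ w : Fin L → Fin 6, ∃ x ∈ X, Shows x w j) ?_ hR
  · rw [show 2 * (ε / 2) = ε by ring] at h
    exact h
  intro p
  refine le_trans ?_ (hC X hX hinf p)
  refine Pool.Agent.Zk45.RS.count_le_card _ fun i hi h2 => ?_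
  push Not at h2
  obtain ⟨w, hw⟩ := h2
  exact ⟨w, fun x hx hcon => hw x hx hcon⟩

/-- (1) Every nonzero finite configuration is the expansion of a positive real number.

(2) For all `L`, `k` and `ε > 0` there is `R₀` such that for all configurations `x_1, …, x_k` which are expansions of
positive real numbers and all `R ≥ R₀`, among any `R` consecutive positions all but at most `ε R` are good for all the
`x_i`: every word of `L` letters is shown there by `F^n x_i` for infinitely many `n`.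

(3) For all `L` and `ε > 0` there are `R₀` and `C` such that for every configuration `x` which is the expansion of a
positive real number `α`, all times `N` and all `R ≥ R₀`, at all but at most `ε R` of any `R` consecutive positions `j`
every word of `L` letters is shown by `F^n x` for some `n` with `N ≤ n ≤ N + C + max (log_2 v, -log_(3/2) v)`,
`v = 6^j (3/2)^N α`.

(4) For every `s ≥ 2` which is not prime to `6`, every `L` and `ε > 0` there is `R₀` such that for all `R ≥ R₀`, every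
`α > 0` and every position `p`, for all but at most `ε R` of any `R` consecutive integers `i` the position `p` is good for
the expansion of `s^i α`.

(5) For all `L` and `ε > 0` there is `R₀` such that for every infinite set `X` of configurations with `F(X) = X` and all
`R ≥ R₀`, at all but at most `ε R` of any `R` consecutive positions every word of `L` letters is shown by some element of
`X`. -/
theorem result :
    (∀ x : Conf, IsFin x → x ≠ 0 → PosReal x) ∧
    (∀ (L k : ℕ) (ε : ℝ), 0 < ε → ∃ R₀ : ℕ, ∀ R : ℕ, R₀ ≤ R → ∀ x : Fin k → Conf, (∀ i, PosReal (x i)) →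
      Rare ε R (fun j => ∃ i, ¬ Good L (x i) j)) ∧
    (∀ (L : ℕ) (ε : ℝ), 0 < ε → ∃ R₀ C : ℕ, ∀ R : ℕ, R₀ ≤ R → ∀ (x : Conf) (α : ℝ), 0 < α → Rep x α → ∀ N : ℕ,
      Rare ε R (fun j => ¬ ∀ w : Fin L → Fin 6, ∃ n : ℕ, N ≤ n ∧
        (n : ℝ) ≤ N + C + max (Real.logb 2 ((6 : ℝ) ^ j * ((3 / 2) ^ N * α)))
          (-Real.logb (3 / 2) ((6 : ℝ) ^ j * ((3 / 2) ^ N * α))) ∧ Shows (F^[n] x) w j)) ∧
    (∀ s : ℕ, 2 ≤ s → ¬ s.Coprime 6 → ∀ (L : ℕ) (ε : ℝ), 0 < ε → ∃ R₀ : ℕ, ∀ R : ℕ, R₀ ≤ R → ∀ α : ℝ, 0 < α →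
      ∀ p : ℤ, Rare ε R (fun i => ¬ Good L (expansion ((s : ℝ) ^ i * α)) p)) ∧
    (∀ (L : ℕ) (ε : ℝ), 0 < ε → ∃ R₀ : ℕ, ∀ R : ℕ, R₀ ≤ R → ∀ X : Set Conf, F '' X = X → X.Infinite →
      Rare ε R (fun j => ¬ ∀ w : Fin L → Fin 6, ∃ x ∈ X, Shows x w j)) := by
  refine ⟨?_, fun L k ε hε => several L k ε hε, fun L ε hε => timed L ε hε,
    fun s hs hs6 L ε hε => multiples s hs hs6 L ε hε, fun L ε hε => sets (Pool.Agent.Zk63.RS45.conf (Pool.Agent.Zk85.RS45.sets Pool.Agent.Zk45.RS.sta_final)) L ε hε⟩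
  intro x hx hne
  obtain ⟨m, k, h1, h2, -⟩ := exists_rep hx
  have hm := h2 hne
  exact ⟨_, by positivity, h1⟩

end Pool.Agent.Results.MP_cc0c1a_nt.AlmostAllPositionsRecur
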