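import Mathlib
import Pool.Agent.H429R2.Auto
import Pool.Agent.Zk45.Host6

set_option autoImplicit false

/-!
# A theorem of Host type for multiplication by `3/2`

Let `μ` be a shift-invariant probability measure on `{0,…,5}^ℤ` without deterministic part: on no
invariant set of positive measure is the digit at the origin a function of the digits to its left
(equivalently, almost every ergodic component of `μ` has positive entropy). Then `μ`-almost every
configuration is generic for the automaton `F` with respect to the uniform measure: every word of
length `L` is shown at every position with frequency `6 ^ (-L)`, also along any fixed set of times of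
positive lower density. The same holds if the digits to the left of the origin are replaced by any
functions of the left digits, for example by zeros; then the configurations are the base-6 expansions
of the reals `∑_{i ≥ 0} x_i 6^(-i)`.

Proof. Let `𝒫_m` be the σ-algebra of the digits at the positions `< m`, `θ = log (3/2) / log 6`. The
terms of an exponential sum `∑_n e (γ (3/2)^n x)`, truncated to the first `θ n + K'` digits, minus their
conditional expectations given `𝒫_{⌊θ n⌋ - K}`, are orthogonal at a bounded distance and satisfy a
strong law. The absolute value of the conditional expectation is a function `Φ` of `(⌊θ n⌋, {θ n})`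
along the skew product of the shift over the rotation by `θ`; the pointwise ergodic theorem there, and
continuity of `Φ` in the phase, reduce the sum to the mean of `Φ` over process and phase. That mean is
bounded by the expected collision probability of two continuations of the same past, which is
`E ∏_{i<R} q(σ^i x)` with `q` the conditional probability of the digit that occurs, and tends to zero.
-/

namespace Pool.Agent.Results.MP_cc0c1a_nt.HostTheorem

open Pool.Agent.H429R2.Auto Filter Topology MeasureTheory

/-- The shift `(σ x)_i = x_{i+1}`. -/
def shift (x : Conf) : Conf := fun i => x (i + 1)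

/-- The σ-algebra generated by the digits at the positions `i < 0`. -/
@[instance_reducible] def past : MeasurableSpace Conf :=
  MeasurableSpace.comap (fun (x : Conf) (i : Set.Iio (0 : ℤ)) => x i) inferInstance

/-- On no shift-invariant set of positive measure is the digit `x_0` almost surely a function of the digits
to its left. -/
def NoDeterministicPart (μ : Measure Conf) : Prop :=
  ∀ A : Set Conf, MeasurableSet A → shift ⁻¹' A = A → μ A ≠ 0 →
    ¬ ∃ g : Conf → Fin 6, Measurable[past] g ∧ ∀ᵐ x ∂(μ.restrict A), x 0 = g x

/-- The configuration with the digits of `x` at the positions `i ≥ 0` and those of `l` at the positions `i < 0`. -/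
def glue (l x : Conf) : Conf := fun i => if 0 ≤ i then x i else l i

/-- `x` shows the word `w` of `L` letters starting at the position `j`. -/
def Shows {L : ℕ} (x : Conf) (w : Fin L → Fin 6) (j : ℤ) : Prop := ∀ s : Fin L, x (j + (s : ℕ)) = w s

/-- Let `μ` be a shift-invariant probability measure on `{0,…,5}^ℤ` without deterministic part, let `T` be a set of
times with `|T ∩ [0,N)| ≥ c N` for large `N`, `c > 0`, and let `l x` be a configuration depending on `x` such that the
digits of `l x` at positions `i < 0` are functions of the digits of `x` at positions `< 0` (for example `l x = x`, or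
`l x` constant). Then for `μ`-almost all `x`, for every position `j` and every word `w` of length `L`, the proportion of
the `n ∈ T`, `n < N`, at which `F ^ n` of the configuration `glue (l x) x` shows `w` at `j` tends to `6 ^ (-L)`; in
particular the orbit of `glue (l x) x` is dense. -/
theorem result (μ : Measure Conf) [IsProbabilityMeasure μ] (hinv : MeasurePreserving shift μ μ)
    (hnd : NoDeterministicPart μ) (l : Conf → Conf) (hl : ∀ i : ℤ, i < 0 → Measurable[past] (fun x => l x i))
    (T : Set ℕ) (c : ℝ) (hc : 0 < c) (hT : ∀ᶠ N : ℕ in atTop, c * N ≤ ({n : ℕ | n < N ∧ n ∈ T}.ncard : ℝ)) :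
    ∀ᵐ x ∂μ, (∀ (j : ℤ) (L : ℕ) (w : Fin L → Fin 6),
      Tendsto (fun N : ℕ => ({n : ℕ | n < N ∧ n ∈ T ∧ Shows (F^[n] (glue (l x) x)) w j}.ncard : ℝ) /
        ({n : ℕ | n < N ∧ n ∈ T}.ncard : ℝ)) atTop (𝓝 (1 / 6 ^ L))) ∧
      Dense (orbit (glue (l x) x)) := by
  have h := Pool.Agent.Zk45.Hst.freq μ hinv hnd l hl T c hc hT
  filter_upwards [h] with x hx
  refine ⟨hx, Pool.Agent.Zk45.Far.dense_of_shows _ fun j L w => ?_⟩
  have h1 := hx j L w
  by_contra hno
  push Not at hno
  have h2 : ∀ N : ℕ, {n : ℕ | n < N ∧ n ∈ T ∧ Pool.Agent.Zk45.Two.Sh (F^[n] (Pool.Agent.Zk45.Hst.glue (l x) x)) w j} = ∅ := by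
    intro N
    ext n
    simp only [Set.mem_ofPred_eq, Set.mem_empty_iff_false, iff_false, not_and]
    intro _ _
    exact hno n
  simp only [h2, Set.ncard_empty, Nat.cast_zero, zero_div] at h1
  have h3 := tendsto_nhds_unique h1 tendsto_const_nhds
  have h4 : (0 : ℝ) < 1 / 6 ^ L := by positivity
  linarith

end Pool.Agent.Results.MP_cc0c1a_nt.HostTheorem
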