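import Mathlib
import Pool.Agent.H429R2.Auto
import Pool.Agent.Zk45.Lac
import Pool.Agent.Zk45.Rand

set_option autoImplicit false

/-!
# Arbitrarily sparse configurations with a dense orbit

(1) For every function `g`, every digit `c ≠ 0` and every set `T` of positions of positive upper Banach
density, the generic configuration with digits `0` and `c`, with the digit `c` only at positions in `T`
and with gaps between its nonzero digits growing as prescribed by `g`, has a dense orbit under `F`.

(2) Let the digits at the positions `0, 1, 2, …` be independent, the `i`-th one being nonzero with a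
probability `p_i` that decreases to zero. If `∑ p_i = ∞`, then almost surely the orbit under `F` is dense.
(If `∑ p_i < ∞`, then almost surely the configuration is finite.)

Proof of (1): Baire category; a new digit at almost every far position makes all words of given length appear
(second moment method, see `TwoBlocks`). Proof of (2): given the first `n` digits, the next nonzero digit is at a good
position with probability close to one, by Abel summation, since almost all positions of every long interval are good
and the gaps are long; after that there is a long run of zeros. So every word is shown at every position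
with conditional probability at least `1/3`, whatever the first digits are; the zero-one law concludes.
-/

namespace Pool.Agent.Results.MP_cc0c1a_nt.SparseConfigurations

open Pool.Agent.H429R2.Auto Filter Topology MeasureTheory ProbabilityTheory

/-- The configuration with the digits `a 0, a 1, …` at the positions `0, 1, …` and zeros elsewhere. -/
def conf (a : ℕ → Fin 6) : Conf := fun i => if 0 ≤ i then a i.toNat else 0

/-- The sequences of digits `0` and `c`, with the digit `c` only at positions in `T`, such that the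
position of every nonzero digit after the `i`-th position is at least `g i` if the digit at the position
`i` is not zero. -/
def Lac (T : Set ℕ) (c : Fin 6) (g : ℕ → ℕ) : Set (ℕ → Fin 6) :=
  {a | (∀ i, a i = 0 ∨ (a i = c ∧ i ∈ T)) ∧ ∀ i k, i < k → a i ≠ 0 → a k ≠ 0 → g i ≤ k}

/-- `T` has positive upper Banach density. -/
def PosDens (T : Set ℕ) : Prop :=
  ∃ δ : ℝ, 0 < δ ∧ ∀ P0 : ℕ, ∃ A P : ℕ, P0 ≤ P ∧ δ * P ≤ ((T ∩ Set.Ioc A (A + P)).ncard : ℝ)

theorem lacunary (T : Set ℕ) (hT : PosDens T) (c : Fin 6) (hc : c ≠ 0) (g : ℕ → ℕ) :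
    IsCompact (Lac T c g) ∧
    (∀ᶠ a : Lac T c g in residual (Lac T c g), {i : ℕ | (a : ℕ → Fin 6) i ≠ 0}.Infinite ∧
      Dense (orbit (conf (a : ℕ → Fin 6)))) ∧
    (∀ a ∈ Lac T c g, ∀ N : ℕ, ∃ b ∈ Lac T c g, (∀ i < N, b i = a i) ∧ {i : ℕ | b i ≠ 0}.Infinite ∧
      Dense (orbit (conf b))) := by
  have hcomp : IsCompact (Lac T c g) := (Pool.Agent.Zk45.LacN.closed_Lac T c g).isCompact
  have hres : ∀ᶠ a : Lac T c g in residual (Lac T c g), {i : ℕ | (a : ℕ → Fin 6) i ≠ 0}.Infinite ∧
      Dense (orbit (conf (a : ℕ → Fin 6))) := Pool.Agent.Zk45.LacN.residual_Lac T hT c hc g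
  refine ⟨hcomp, hres, fun a ha N => ?_⟩
  haveI : CompactSpace (Lac T c g) := isCompact_iff_compactSpace.1 hcomp
  have hd := dense_of_mem_residual hres
  -- the open set of the sequences that agree with `a` at the first `N` positions
  have hopen : IsOpen {b : Lac T c g | ∀ i < N, (b : ℕ → Fin 6) i = a i} := by
    have h1 : {b : Lac T c g | ∀ i < N, (b : ℕ → Fin 6) i = a i} =
        ⋂ i : Fin N, {b : Lac T c g | (b : ℕ → Fin 6) i = a i} := by
      ext b
      simp only [Set.mem_ofPred_eq, Set.mem_iInter]
      exact ⟨fun h i => h i i.2, fun h i hi => h ⟨i, hi⟩⟩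
    rw [h1]
    refine isOpen_iInter_of_finite fun i => ?_
    have hcn : Continuous (fun b : Lac T c g => (b : ℕ → Fin 6) i) :=
      (continuous_apply (i : ℕ)).comp continuous_subtype_val
    exact (isOpen_discrete ({a i} : Set (Fin 6))).preimage hcn
  obtain ⟨b, hb1, hb2⟩ := hd.inter_open_nonempty _ hopen ⟨⟨a, ha⟩, fun i _ => rfl⟩
  exact ⟨b, b.2, hb1, hb2.1, hb2.2⟩

theorem random {Ω : Type} [MeasurableSpace Ω] (μ : Measure Ω) [IsProbabilityMeasure μ] (X : ℕ → Ω → Fin 6)
    (hX : ∀ i, Measurable (X i)) (hind : iIndepFun X μ) (hanti : Antitone fun i => μ.real {ω | X i ω ≠ 0})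
    (hlim : Tendsto (fun i => μ.real {ω | X i ω ≠ 0}) atTop (𝓝 0)) :
    (¬ Summable (fun i => μ.real {ω | X i ω ≠ 0}) → ∀ᵐ ω ∂μ, Dense (orbit (conf (fun i => X i ω)))) ∧
    (Summable (fun i => μ.real {ω | X i ω ≠ 0}) → ∀ᵐ ω ∂μ, IsFin (conf (fun i => X i ω))) := by
  refine ⟨fun hdiv => Pool.Agent.Zk45.Rand.main μ X hX hind hanti hlim hdiv, fun hsum => ?_⟩
  have h1 : ∑' i, μ {ω | X i ω ≠ 0} ≠ ⊤ := by
    have h2 : ∀ i, μ {ω | X i ω ≠ 0} = ENNReal.ofReal (μ.real {ω | X i ω ≠ 0}) := by
      intro i
      rw [measureReal_def, ENNReal.ofReal_toReal (measure_ne_top _ _)]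
    simp only [h2]
    exact hsum.tsum_ofReal_ne_top
  filter_upwards [ae_finite_setOf_mem h1] with ω hω
  unfold IsFin
  refine (hω.image (fun i : ℕ => (i : ℤ))).subset ?_
  intro i hi
  simp only [Set.mem_ofPred_eq, conf] at hi
  split_ifs at hi with h0
  · refine ⟨i.toNat, hi, ?_⟩
    simp only
    omega
  · exact absurd rfl hi

/-- (1) Let `T` be a set of positive upper Banach density, `c ≠ 0` a digit and `g` any function. The space
`Lac T c g` is compact, and the `a` in it such that `a` has infinitely many nonzero digits and the orbit of `conf a`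
under `F` is dense in the space of all configurations form a residual set. In particular for every `a ∈ Lac T c g` and
every `N` there is such a `b ∈ Lac T c g` that agrees with `a` at the first `N` positions.

(2) Let `X 0, X 1, …` be independent random digits such that the probabilities `p_i` of `X i ≠ 0` are
nonincreasing and tend to zero. If `∑ p_i = ∞`, then almost surely the orbit of the configuration
`… 0 0 X_0 X_1 X_2 …` under `F` is dense; if `∑ p_i < ∞`, then almost surely this configuration is finite. -/
theorem result :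
    (∀ T : Set ℕ, PosDens T → ∀ c : Fin 6, c ≠ 0 → ∀ g : ℕ → ℕ,
      IsCompact (Lac T c g) ∧
      (∀ᶠ a : Lac T c g in residual (Lac T c g), {i : ℕ | (a : ℕ → Fin 6) i ≠ 0}.Infinite ∧
        Dense (orbit (conf (a : ℕ → Fin 6)))) ∧
      (∀ a ∈ Lac T c g, ∀ N : ℕ, ∃ b ∈ Lac T c g, (∀ i < N, b i = a i) ∧ {i : ℕ | b i ≠ 0}.Infinite ∧
        Dense (orbit (conf b)))) ∧
    (∀ (Ω : Type) (_ : MeasurableSpace Ω) (μ : Measure Ω), IsProbabilityMeasure μ → ∀ X : ℕ → Ω → Fin 6,
      (∀ i, Measurable (X i)) → iIndepFun X μ → (Antitone fun i => μ.real {ω | X i ω ≠ 0}) →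
      Tendsto (fun i => μ.real {ω | X i ω ≠ 0}) atTop (𝓝 0) →
      (¬ Summable (fun i => μ.real {ω | X i ω ≠ 0}) → ∀ᵐ ω ∂μ, Dense (orbit (conf (fun i => X i ω)))) ∧
      (Summable (fun i => μ.real {ω | X i ω ≠ 0}) → ∀ᵐ ω ∂μ, IsFin (conf (fun i => X i ω)))) := by
  refine ⟨fun T hT c hc g => lacunary T hT c hc g, ?_⟩
  intro Ω _ μ hμ X hX hind hanti hlim
  exact random μ X hX hind hanti hlim

end Pool.Agent.Results.MP_cc0c1a_nt.SparseConfigurations
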