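import Mathlib
import Pool.Agent.H429R2.Auto
import Pool.Agent.Zk45.Two

set_option autoImplicit false

/-!
# Finite configurations consisting of two blocks

Let `x` and `y ≠ 0` be finite configurations, and put a copy of `y` at distance `p` to the right of `x`.
For all `p` outside a set of uniform density zero, the orbit under `F` of the resulting finite
configuration shows all words of length `L` with nearly the right frequency `6 ^ (-L)`, at all positions
`|j| ≤ J`, during the window of time in which `(3/2) ^ n` runs from `6 ^ p` to `6 ^ (p + K)`.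

Proof: a second moment over `p` of the exponential sums over the window; the off-diagonal terms are
lacunary sums `∑ e (c 6 ^ (k + τ_n))`, `τ_n` the fractional part of `n log (3/2) / log 6`, and their mean
squares are evaluated with the equidistribution of this irrational rotation.
-/

namespace Pool.Agent.Results.MP_cc0c1a_nt.TwoBlocks

open Pool.Agent.H429R2.Auto

/-- The base 6 expansion of the real number `β ≥ 0`: the digit at the position `i` is
`⌊6 ^ i β⌋ mod 6`. -/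
noncomputable def expansion (β : ℝ) : Conf :=
  fun i => ⟨⌊(6 : ℝ) ^ i * β⌋₊ % 6, Nat.mod_lt _ (by norm_num)⟩

/-- `x` shows the word `w` of `L` letters starting at the position `j`. -/
def Shows {L : ℕ} (x : Conf) (w : Fin L → Fin 6) (j : ℤ) : Prop := ∀ s : Fin L, x (j + (s : ℕ)) = w s

/-- The window of time: the `n` with `6 ^ p ≤ (3/2) ^ n < 6 ^ (p + K)`. -/
def window (K p : ℕ) : Set ℕ := {n : ℕ | (6 : ℝ) ^ p ≤ (3 / 2 : ℝ) ^ n ∧ (3 / 2 : ℝ) ^ n < 6 ^ (p + K)}

/-- In the orbit of `x`, at each position `j` with `|j| ≤ J`, every word of `L` letters is shown with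
frequency between `6 ^ (-L) - ε` and `6 ^ (-L) + ε` during the window of time. -/
def Balanced (L J : ℕ) (ε : ℝ) (K p : ℕ) (x : Conf) : Prop :=
  ∀ j : ℤ, |j| ≤ J → ∀ w : Fin L → Fin 6,
    |({n : ℕ | n ∈ window K p ∧ Shows (F^[n] x) w j}.ncard : ℝ) - (window K p).ncard / 6 ^ L| ≤
      ε * (window K p).ncard

/-- In the orbit of `x`, every word of `L` letters is shown at all positions `j` with `|j| ≤ J`. -/
def AllShown (L J : ℕ) (x : Conf) : Prop :=
  ∀ j : ℤ, |j| ≤ J → ∀ w : Fin L → Fin 6, ∃ n : ℕ, Shows (F^[n] x) w j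

theorem rep_expansion (β : ℝ) : Rep (expansion β) β := fun _ => rfl

theorem window_eq (K p : ℕ) : window K p = ((Pool.Agent.Zk45.R.Win K p : Finset ℕ) : Set ℕ) := by
  ext n
  rw [Finset.mem_coe, Pool.Agent.Zk45.R.mem_Win]
  unfold window
  rw [Set.mem_ofPred_eq, Pool.Agent.Zk45.R.le_pow_iff, Pool.Agent.Zk45.R.pow_lt_iff]
  unfold Pool.Agent.Zk45.R.fl
  rw [Int.le_floor, Int.floor_lt]
  push_cast
  rfl

theorem balanced_iff (L J : ℕ) (ε : ℝ) (K p : ℕ) (x : Conf) :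
    Balanced L J ε K p x ↔ Pool.Agent.Zk45.Two.Bal L J ε K p x := by
  unfold Balanced Pool.Agent.Zk45.Two.Bal
  simp only [window_eq, Set.ncard_coe_finset, Finset.mem_coe]
  exact Iff.rfl

theorem main_real (β : ℝ) (hβ : 0 < β) (L J : ℕ) (ε : ℝ) (hε : 0 < ε) : ∃ K0 : ℕ, ∀ K : ℕ, K0 ≤ K →
    ∃ P0 : ℕ, ∀ α : ℝ, 0 ≤ α → ∀ A P : ℕ, P0 ≤ P →
      ({p : ℕ | A < p ∧ p ≤ A + P ∧ ¬ Balanced L J ε K p (expansion (α + β / 6 ^ p))}.ncard : ℝ) ≤ ε * P := by
  obtain ⟨K0, h⟩ := Pool.Agent.Zk45.Two.main β hβ L J ε hε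
  refine ⟨K0, fun K hK => ?_⟩
  obtain ⟨P0, h0⟩ := h K hK
  refine ⟨P0, fun α hα A P hP => ?_⟩
  have h1 := h0 α hα (fun p => expansion (α + β / 6 ^ p)) A P hP
  have hset : {p : ℕ | A < p ∧ p ≤ A + P ∧ ¬ Balanced L J ε K p (expansion (α + β / 6 ^ p))} =
      {p : ℕ | A < p ∧ p ≤ A + P ∧ Rep ((fun p => expansion (α + β / 6 ^ p)) p) (α + β / 6 ^ p) ∧
        ¬ Pool.Agent.Zk45.Two.Bal L J ε K p ((fun p => expansion (α + β / 6 ^ p)) p)} := by
    ext p
    simp only [Set.mem_ofPred_eq, balanced_iff]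
    constructor
    · rintro ⟨a, b, c⟩
      exact ⟨a, b, rep_expansion _, c⟩
    · rintro ⟨a, b, _, c⟩
      exact ⟨a, b, c⟩
  rw [hset]
  exact h1

theorem main_fin (x y : Conf) (hx : IsFin x) (hy : IsFin y) (hy0 : y ≠ 0) (L J : ℕ) (ε : ℝ) (hε : 0 < ε) :
    ∃ K0 : ℕ, ∀ K : ℕ, K0 ≤ K → ∃ P0 : ℕ, ∀ A P : ℕ, P0 ≤ P →
      ({p : ℕ | A < p ∧ p ≤ A + P ∧ ¬ Balanced L J ε K p (x + shiftR^[p] y)}.ncard : ℝ) ≤ ε * P := by
  obtain ⟨m, k, hrx, _, _⟩ := exists_rep hx
  obtain ⟨m', k', hry, hm', _⟩ := exists_rep hy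
  have hm0 : 0 < m' := hm' hy0
  set β : ℝ := (m' : ℝ) / 6 ^ k' with hβ
  have hβ0 : 0 < β := by positivity
  obtain ⟨K0, h⟩ := Pool.Agent.Zk45.Two.main β hβ0 L J (ε / 2) (by linarith)
  obtain ⟨p1, hp1⟩ := pow_unbounded_of_one_lt (β * 6 ^ k) (show (1 : ℝ) < 6 by norm_num)
  refine ⟨K0, fun K hK => ?_⟩
  obtain ⟨P0, h0⟩ := h K hK
  obtain ⟨P1, hP1⟩ := exists_nat_ge (2 * (p1 : ℝ) / ε)
  refine ⟨P0 + P1, fun A P hP => ?_⟩
  have h1 := h0 ((m : ℝ) / 6 ^ k) (by positivity) (fun p => x + shiftR^[p] y) A P (by omega)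
  have hsub : {p : ℕ | A < p ∧ p ≤ A + P ∧ ¬ Balanced L J ε K p (x + shiftR^[p] y)} ⊆
      {p : ℕ | A < p ∧ p ≤ A + P ∧ Rep ((fun p => x + shiftR^[p] y) p) ((m : ℝ) / 6 ^ k + β / 6 ^ p) ∧
        ¬ Pool.Agent.Zk45.Two.Bal L J (ε / 2) K p ((fun p => x + shiftR^[p] y) p)} ∪
      ((Finset.range p1 : Finset ℕ) : Set ℕ) := by
    rintro p ⟨ha, hb, hc⟩
    by_cases hp : p < p1
    · right
      rw [Finset.mem_coe, Finset.mem_range]
      exact hp
    · left
      refine ⟨ha, hb, ?_, ?_⟩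
      · apply Pool.Agent.Zk45.Two.rep_add hrx hβ0.le hry p
        exact hp1.trans_le (pow_le_pow_right₀ (by norm_num) (not_lt.1 hp))
      · intro hbal
        apply hc
        rw [balanced_iff]
        intro j hj w
        refine (hbal j hj w).trans ?_
        have : (0 : ℝ) ≤ ((Pool.Agent.Zk45.R.Win K p).card : ℝ) := Nat.cast_nonneg _
        nlinarith
  have hfin : ({p : ℕ | A < p ∧ p ≤ A + P ∧ Rep ((fun p => x + shiftR^[p] y) p) ((m : ℝ) / 6 ^ k + β / 6 ^ p) ∧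
        ¬ Pool.Agent.Zk45.Two.Bal L J (ε / 2) K p ((fun p => x + shiftR^[p] y) p)} : Set ℕ).Finite :=
    (Set.finite_Iic (A + P)).subset (fun p hp => hp.2.1)
  have h2 := Set.ncard_le_ncard hsub (hfin.union (Finset.finite_toSet _))
  have h3 := h2.trans (Set.ncard_union_le _ _)
  rw [Set.ncard_coe_finset, Finset.card_range] at h3
  have h4 : ({p : ℕ | A < p ∧ p ≤ A + P ∧ ¬ Balanced L J ε K p (x + shiftR^[p] y)}.ncard : ℝ) ≤ ε / 2 * P + p1 := by
    have h3' := (Nat.cast_le (α := ℝ)).2 h3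
    rw [Nat.cast_add] at h3'
    linarith
  have h5 : (p1 : ℝ) ≤ ε / 2 * P := by
    rw [div_le_iff₀ hε] at hP1
    have h6 : (P1 : ℝ) ≤ P := by
      have : P1 ≤ P := by omega
      exact_mod_cast this
    nlinarith
  linarith

/-- (1) Let `β > 0` be real, `L, J ≥ 0` and `ε > 0`. There is `K0` such that for all `K ≥ K0` there is
`P0` such that for all real `α ≥ 0` and all `A` and `P ≥ P0`, for all but at most `ε P` of the `p` with
`A < p ≤ A + P`, the orbit of the base 6 expansion of `α + β / 6 ^ p` is balanced during the window of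
time of the `n` with `6 ^ p ≤ (3/2) ^ n < 6 ^ (p + K)`.

(2) The same for the finite configurations `x + σ^(-p) y` that consist of two given finite blocks `x`
and `y ≠ 0` at distance `p`.

(3) For finite `x` and `y ≠ 0` and all `L, J`, the set of the `p` such that the orbit of the finite
configuration `x + σ^(-p) y` shows every word of `L` letters at every position `j` with `|j| ≤ J` has
density one, uniformly in all intervals. -/
theorem result :
    (∀ β : ℝ, 0 < β → ∀ L J : ℕ, ∀ ε : ℝ, 0 < ε → ∃ K0 : ℕ, ∀ K : ℕ, K0 ≤ K → ∃ P0 : ℕ,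
      ∀ α : ℝ, 0 ≤ α → ∀ A P : ℕ, P0 ≤ P →
      ({p : ℕ | A < p ∧ p ≤ A + P ∧ ¬ Balanced L J ε K p (expansion (α + β / 6 ^ p))}.ncard : ℝ) ≤ ε * P) ∧
    (∀ x y : Conf, IsFin x → IsFin y → y ≠ 0 → ∀ L J : ℕ, ∀ ε : ℝ, 0 < ε → ∃ K0 : ℕ, ∀ K : ℕ, K0 ≤ K →
      ∃ P0 : ℕ, ∀ A P : ℕ, P0 ≤ P →
      ({p : ℕ | A < p ∧ p ≤ A + P ∧ ¬ Balanced L J ε K p (x + shiftR^[p] y)}.ncard : ℝ) ≤ ε * P) ∧
    (∀ x y : Conf, IsFin x → IsFin y → y ≠ 0 → (∀ p : ℕ, IsFin (x + shiftR^[p] y)) ∧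
      ∀ L J : ℕ, ∀ ε : ℝ, 0 < ε → ∃ P0 : ℕ, ∀ A P : ℕ, P0 ≤ P →
      ({p : ℕ | A < p ∧ p ≤ A + P ∧ ¬ AllShown L J (x + shiftR^[p] y)}.ncard : ℝ) ≤ ε * P) := by
  refine ⟨fun β hβ L J ε hε => main_real β hβ L J ε hε, fun x y hx hy hy0 L J ε hε =>
    main_fin x y hx hy hy0 L J ε hε, fun x y hx hy hy0 => ⟨fun p => ?_, fun L J ε hε => ?_⟩⟩
  · have h1 : ∀ p : ℕ, IsFin (shiftR^[p] y) := by
      intro p
      induction p with
      | zero => exact hy
      | succ p ih =>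
        rw [Function.iterate_succ_apply']
        have h2 : {i : ℤ | shiftR (shiftR^[p] y) i ≠ 0} = (fun i : ℤ => i + 1) '' {i : ℤ | (shiftR^[p] y) i ≠ 0} := by
          ext i
          simp only [Set.mem_image, Set.mem_ofPred_eq, shiftR]
          constructor
          · intro h
            exact ⟨i - 1, h, by ring⟩
          · rintro ⟨j, hj, rfl⟩
            simpa using hj
        unfold IsFin
        rw [h2]
        exact ih.image _
    refine (hx.union (h1 p)).subset ?_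
    intro i hi
    simp only [Set.mem_ofPred_eq, Pi.add_apply] at hi
    by_contra hcon
    simp only [Set.mem_union, Set.mem_ofPred_eq, not_or, not_not] at hcon
    apply hi
    rw [hcon.1, hcon.2]
    rfl
  · set ε' : ℝ := min ε (1 / (2 * 6 ^ L)) with hε'
    have hε'0 : 0 < ε' := lt_min hε (by positivity)
    obtain ⟨K0, h⟩ := main_fin x y hx hy hy0 L J ε' hε'0
    obtain ⟨P0, h0⟩ := h (K0 + 1) (by omega)
    refine ⟨P0, fun A P hP => ?_⟩
    have hfin : ({p : ℕ | A < p ∧ p ≤ A + P ∧ ¬ Balanced L J ε' (K0 + 1) p (x + shiftR^[p] y)} : Set ℕ).Finite :=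
      (Set.finite_Iic (A + P)).subset (fun p hp => hp.2.1)
    have hsub : {p : ℕ | A < p ∧ p ≤ A + P ∧ ¬ AllShown L J (x + shiftR^[p] y)} ⊆
        {p : ℕ | A < p ∧ p ≤ A + P ∧ ¬ Balanced L J ε' (K0 + 1) p (x + shiftR^[p] y)} := by
      rintro p ⟨ha, hb, hc⟩
      refine ⟨ha, hb, fun hbal => hc ?_⟩
      intro j hj w
      by_contra hno
      push Not at hno
      have h1 := hbal j hj w
      have hempty : {n : ℕ | n ∈ window (K0 + 1) p ∧ Shows (F^[n] (x + shiftR^[p] y)) w j} = ∅ := by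
        ext n
        simp only [Set.mem_ofPred_eq, Set.mem_empty_iff_false, iff_false, not_and]
        intro _
        exact hno n
      rw [hempty, Set.ncard_empty, window_eq, Set.ncard_coe_finset] at h1
      have hc1 : (4 : ℝ) ≤ ((Pool.Agent.Zk45.R.Win (K0 + 1) p).card : ℝ) := by
        have := Pool.Agent.Zk45.R.Win_card (K0 + 1) p
        have h4 : 4 ≤ (Pool.Agent.Zk45.R.Win (K0 + 1) p).card := by omega
        exact_mod_cast h4
      set C : ℝ := ((Pool.Agent.Zk45.R.Win (K0 + 1) p).card : ℝ) with hC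
      have h6 : (0 : ℝ) < 6 ^ L := by positivity
      have h2 : |((0 : ℕ) : ℝ) - C / 6 ^ L| = C / 6 ^ L := by
        rw [Nat.cast_zero, zero_sub, abs_neg, abs_of_pos (by positivity)]
      rw [h2] at h1
      have h3 : ε' * C ≤ 1 / (2 * 6 ^ L) * C := mul_le_mul_of_nonneg_right (min_le_right _ _) (by linarith)
      have h4 : 1 / (2 * 6 ^ L) * C = C / 6 ^ L / 2 := by field_simp
      have h5 : 0 < C / 6 ^ L := by positivity
      linarith
    have h1 := Set.ncard_le_ncard hsub hfin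
    have h2 : ε' * P ≤ ε * P := mul_le_mul_of_nonneg_right (min_le_left _ _) (Nat.cast_nonneg _)
    exact le_trans (by exact_mod_cast h1) ((h0 A P hP).trans h2)

end Pool.Agent.Results.MP_cc0c1a_nt.TwoBlocks
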